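import Mathlib
import Pool.Agent.H5.Ek
import Pool.Agent.H5.LpNull

open Filter Topology
open scoped ENNReal Nat

namespace Pool.Agent.Results.MP_94b2f9_an.NoBlid

open Pool.Agent.H5.LpNull

theorem taylor {E Y : Type} [NormedAddCommGroup E] [NormedSpace ℝ E] [NormedAddCommGroup Y]
    [NormedSpace ℝ Y] [CompleteSpace Y] (K : ℕ) (f : E → Y) (hf : ContDiff ℝ (K + 1 : ℕ) f)
    (x : E) : ∃ C : ℝ, 0 ≤ C ∧ ∃ δ > 0, ∀ y : E, ‖y‖ < δ →
      ‖f (x + y) - ∑ k ∈ Finset.range (K + 1), (k ! : ℝ)⁻¹ • iteratedFDeriv ℝ k f x fun _ => y‖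
        ≤ C * ‖y‖ ^ (K + 1) := by
  have hc : Continuous (iteratedFDeriv ℝ (K + 1) f) := hf.continuous_iteratedFDeriv le_rfl
  obtain ⟨δ, hδ, h⟩ := Metric.continuousAt_iff.1 (hc.continuousAt (x := x)) 1 one_pos
  refine ⟨‖iteratedFDeriv ℝ (K + 1) f x‖ + 1, by positivity, δ, hδ, fun y hy => ?_⟩
  rw [map_add_eq_sum_add_integral_iteratedFDeriv (n := K) (f := f) (x := x) (y := y)
    (fun t _ => by exact_mod_cast hf.contDiffAt), add_sub_cancel_left, norm_smul]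
  have h1 : ‖(K ! : ℝ)⁻¹‖ ≤ 1 := by
    rw [norm_inv, Real.norm_natCast]
    exact inv_le_one_of_one_le₀ (by exact_mod_cast K.factorial_pos)
  have h2 := intervalIntegral.norm_integral_le_of_norm_le_const (a := 0) (b := 1)
    (f := fun t : ℝ => (1 - t) ^ K • iteratedFDeriv ℝ (K + 1) f (x + t • y) fun _ => y)
    (C := (‖iteratedFDeriv ℝ (K + 1) f x‖ + 1) * ‖y‖ ^ (K + 1)) (fun t ht => by
      rw [Set.uIoc_of_le zero_le_one] at ht
      rw [norm_smul, norm_pow, Real.norm_of_nonneg (sub_nonneg.2 ht.2)]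
      have h3 : (1 - t) ^ K ≤ 1 := pow_le_one₀ (sub_nonneg.2 ht.2) (by linarith [ht.1])
      have h4 := (iteratedFDeriv ℝ (K + 1) f (x + t • y)).le_opNorm fun _ => y
      rw [Finset.prod_const, Finset.card_univ, Fintype.card_fin] at h4
      have h5 : dist (x + t • y) x < δ := by
        rw [dist_self_add_left, norm_smul, Real.norm_of_nonneg ht.1.le]
        nlinarith [ht.1, ht.2, norm_nonneg y]
      have h6 := h h5
      rw [dist_eq_norm] at h6
      have h7 := norm_sub_norm_le (iteratedFDeriv ℝ (K + 1) f (x + t • y))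
        (iteratedFDeriv ℝ (K + 1) f x)
      calc _ ≤ 1 * ((‖iteratedFDeriv ℝ (K + 1) f x‖ + 1) * ‖y‖ ^ (K + 1)) := by
            refine mul_le_mul h3 (h4.trans ?_) (norm_nonneg _) zero_le_one
            gcongr
            linarith
        _ = _ := one_mul _)
  rw [sub_zero, abs_one, mul_one] at h2
  calc _ ≤ 1 * ((‖iteratedFDeriv ℝ (K + 1) f x‖ + 1) * ‖y‖ ^ (K + 1)) :=
        mul_le_mul h1 h2 (norm_nonneg _) zero_le_one
    _ = _ := one_mul _

variable {p : ℝ≥0∞} [Fact (1 ≤ p)]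

noncomputable def hh (p : ℝ≥0∞) [Fact (1 ≤ p)] (q : ℕ × ℕ) : X p := e p q.1 - e p q.2

theorem norm_hh (q : ℕ × ℕ) : ‖hh p q‖ ≤ 2 := by
  refine (norm_sub_le _ _).trans ?_
  rw [norm_e, norm_e]
  norm_num

theorem null (hp : p ≠ ⊤) (hev : ∀ k : ℕ, p ≠ 2 * k) {Y : Type} [NormedAddCommGroup Y]
    [NormedSpace ℝ Y] [CompleteSpace Y] (f : X p → Y)
    (hf : ContDiff ℝ (⌊p.toReal⌋₊ + 1 : ℕ) f) (x : X p) :
    ∃ C : ℝ, 0 ≤ C ∧ ∃ δ > 0, ∀ t : ℝ, 0 < t → t < δ → ∃ W : ℕ × ℕ → Y,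
      (∀ q, ‖f (x + t • hh p q) - f x - W q‖ ≤ C * t ^ (⌊p.toReal⌋₊ + 1)) ∧
      ∀ l : Y →L[ℝ] ℝ, Tendsto (fun q => l (W q)) (U.curry U) (𝓝 0) := by
  set K := ⌊p.toReal⌋₊ with hK
  obtain ⟨C, hC, δ, hδ, h⟩ := taylor K f hf x
  refine ⟨C * 2 ^ (K + 1), by positivity, δ / 2, by positivity, fun t ht ht' => ?_⟩
  refine ⟨fun q => ∑ k ∈ Finset.range K, ((k + 1)! : ℝ)⁻¹ •
    iteratedFDeriv ℝ (k + 1) f x fun _ => t • hh p q, fun q => ?_, fun l => ?_⟩
  · have h1 : ‖t • hh p q‖ ≤ 2 * t := by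
      rw [norm_smul, Real.norm_of_nonneg ht.le]
      nlinarith [norm_hh (p := p) q]
    have h2 := h (t • hh p q) (by linarith)
    rw [Finset.sum_range_succ'] at h2
    simp only [Nat.factorial_zero, Nat.cast_one, inv_one, one_smul, iteratedFDeriv_zero_apply] at h2
    rw [sub_sub, add_comm (f x), mul_assoc, ← mul_pow]
    refine h2.trans ?_
    gcongr
  · simp only [map_sum, map_smul]
    rw [← Finset.sum_const_zero (s := Finset.range K)]
    refine tendsto_finsetSum _ fun k hk => ?_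
    have hk1 : k + 1 ≤ K := Finset.mem_range.1 hk
    have hk2 : ((k + 1 : ℕ) : ℝ) ≤ p.toReal :=
      le_trans (by exact_mod_cast hk1) (Nat.floor_le ENNReal.toReal_nonneg)
    have hk3 : ((k + 1 : ℕ) : ℝ) < p.toReal ∨ Odd (k + 1) := by
      rcases hk2.lt_or_eq with h1 | h1
      · exact Or.inl h1
      · refine Or.inr (Nat.not_even_iff_odd.1 ?_)
        rintro ⟨j, hj⟩
        apply hev j
        rw [← ENNReal.ofReal_toReal hp, ← h1, ENNReal.ofReal_natCast, hj]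
        push_cast
        ring
    have h1 := ((ml2 hp (k + 1) (by omega) hk2 hk3
      (l.compContinuousMultilinearMap (iteratedFDeriv ℝ (k + 1) f x))).const_mul
        (t ^ (k + 1))).const_mul (((k + 1)! : ℝ)⁻¹)
    rw [mul_zero, mul_zero] at h1
    refine h1.congr fun q => ?_
    rw [(iteratedFDeriv ℝ (k + 1) f x).map_smul_univ (fun _ => t) fun _ => hh p q]
    simp [hh]

theorem snd_top : Tendsto (fun q : ℕ × ℕ => q.2) (U.curry U) atTop := by
  intro s hs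
  have : ∀ᶠ q in U.curry U, q.2 ∈ s := by
    rw [eventually_curry_iff]
    exact Eventually.of_forall fun _ => U_le hs
  exact this

theorem fst_top : Tendsto (fun q : ℕ × ℕ => q.1) (U.curry U) atTop := by
  intro s hs
  have : ∀ᶠ q in U.curry U, q.1 ∈ s := by
    rw [eventually_curry_iff]
    filter_upwards [U_le hs] with n hn
    exact Eventually.of_forall fun _ => hn
  exact this

theorem normlem (hp : p ≠ ⊤) (y : X p) (W : ℕ × ℕ → X p)
    (hW : ∀ j, Tendsto (fun q => W q j) (U.curry U) (𝓝 0)) (a : ℝ) (ha : 0 ≤ a)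
    (h : ∀ᶠ q in U.curry U, a ≤ ‖(y + W q) q.2‖) (η : ℝ) (hη : 0 < η) :
    ∀ᶠ q in U.curry U, ‖y‖ ^ p.toReal + a ^ p.toReal - η ≤ ‖y + W q‖ ^ p.toReal := by
  have hr : 0 < p.toReal := zero_lt_one.trans_le (r_ge hp)
  obtain ⟨G, hG⟩ := ((lp.hasSum_norm hr y).eventually
    (lt_mem_nhds (sub_lt_self (‖y‖ ^ p.toReal) hη))).exists
  have h1 : Tendsto (fun q => ∑ j ∈ G, ‖y j + W q j‖ ^ p.toReal) (U.curry U)
      (𝓝 (∑ j ∈ G, ‖y j + 0‖ ^ p.toReal)) :=
    tendsto_finsetSum _ fun j _ =>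
      ((tendsto_const_nhds.add (hW j)).norm).rpow_const (Or.inr hr.le)
  simp only [add_zero] at h1
  filter_upwards [h, h1.eventually (lt_mem_nhds hG),
    snd_top.eventually (eventually_gt_atTop (G.sup id))] with q h2 h3 h4
  have h5 : q.2 ∉ G := fun hq => h4.not_ge (Finset.le_sup (f := id) hq)
  have h6 := lp.sum_rpow_le_norm_rpow hr (y + W q) (insert q.2 G)
  rw [Finset.sum_insert h5] at h6
  have h7 := Real.rpow_le_rpow ha h2 hr.le
  have h8 : ∑ j ∈ G, ‖(y + W q) j‖ ^ p.toReal = ∑ j ∈ G, ‖y j + W q j‖ ^ p.toReal := rfl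
  linarith

theorem root_ineq {s : ℝ} (h0 : 0 ≤ s) (h1 : s ≤ 1) (a b : ℝ) :
    ‖‖a‖ ^ s - ‖b‖ ^ s‖ ≤ ‖a - b‖ ^ s := by
  have key : ∀ a b : ℝ, ‖a‖ ^ s - ‖b‖ ^ s ≤ ‖a - b‖ ^ s := by
    intro a b
    have h2 := Real.rpow_add_le_add_rpow (norm_nonneg (a - b)) (norm_nonneg b) h0 h1
    have h3 : ‖a‖ ^ s ≤ (‖a - b‖ + ‖b‖) ^ s :=
      Real.rpow_le_rpow (norm_nonneg _) (by simpa using norm_add_le (a - b) b) h0
    linarith
  rw [Real.norm_eq_abs, abs_sub_le_iff]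
  exact ⟨key a b, by rw [norm_sub_rev]; exact key b a⟩

noncomputable def R (hp : p ≠ ⊤) (u : X 1) : X p :=
  ⟨fun j => ‖u j‖ ^ p.toReal⁻¹, memℓp_gen (by
    have hr : 0 < p.toReal := zero_lt_one.trans_le (r_ge hp)
    refine (lp.hasSum_norm (p := 1) (by simp) u).summable.congr fun j => ?_
    rw [Real.norm_of_nonneg (Real.rpow_nonneg (norm_nonneg _) _),
      Real.rpow_inv_rpow (norm_nonneg _) hr.ne']
    simp)⟩

theorem R_apply (hp : p ≠ ⊤) (u : X 1) (j : ℕ) : R hp u j = ‖u j‖ ^ p.toReal⁻¹ := rfl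

theorem R_cont (hp : p ≠ ⊤) : Continuous (R hp) := by
  have hr : 0 < p.toReal := zero_lt_one.trans_le (r_ge hp)
  have key : ∀ u v : X 1, ‖R hp u - R hp v‖ ≤ ‖u - v‖ ^ p.toReal⁻¹ := by
    intro u v
    refine lp.norm_le_of_forall_sum_le hr (Real.rpow_nonneg (norm_nonneg _) _) fun s => ?_
    rw [Real.rpow_inv_rpow (norm_nonneg _) hr.ne']
    have h1 := lp.sum_rpow_le_norm_rpow (p := 1) (by simp) (u - v) s
    simp only [ENNReal.toReal_one, Real.rpow_one] at h1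
    refine le_trans (Finset.sum_le_sum fun j _ => ?_) h1
    have h2 := root_ineq (inv_pos.2 hr).le (inv_le_one_of_one_le₀ (r_ge hp)) (u j) (v j)
    have h3 := Real.rpow_le_rpow (norm_nonneg _) h2 hr.le
    rw [Real.rpow_inv_rpow (norm_nonneg _) hr.ne'] at h3
    exact h3
  rw [continuous_iff_continuousAt]
  intro u
  rw [ContinuousAt, tendsto_iff_norm_sub_tendsto_zero]
  refine squeeze_zero (fun _ => norm_nonneg _) (fun v => key v u) ?_
  have h1 : Tendsto (fun v : X 1 => ‖v - u‖) (𝓝 u) (𝓝 0) := tendsto_norm_sub_self u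
  have h2 := h1.rpow_const (p := p.toReal⁻¹) (Or.inr (inv_pos.2 hr).le)
  rwa [Real.zero_rpow (inv_pos.2 hr).ne'] at h2

theorem R_step (hp : p ≠ ⊤) (u : X 1) (t : ℝ) (ht : 0 < t) :
    ∀ᶠ n in atTop, ∃ u' : X 1, R hp u' = R hp u + t • e p n ∧ dist u u' ≤ 2 * t ^ p.toReal := by
  have hr : 0 < p.toReal := zero_lt_one.trans_le (r_ge hp)
  have h1 : Tendsto (fun n => ‖(R hp u n + t) ^ p.toReal - u n‖) atTop
      (𝓝 ‖(0 + t) ^ p.toReal - 0‖) :=
    ((((coord_null hp (R hp u)).add_const t).rpow_const (Or.inr hr.le)).sub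
      (coord_null (p := 1) (by simp) u)).norm
  have h2 : 0 < t ^ p.toReal := Real.rpow_pos_of_pos ht _
  rw [zero_add, sub_zero, Real.norm_of_nonneg h2.le] at h1
  filter_upwards [h1.eventually (gt_mem_nhds (show t ^ p.toReal < 2 * t ^ p.toReal by linarith))]
    with n hn
  refine ⟨u + lp.single 1 n ((R hp u n + t) ^ p.toReal - u n), ?_, ?_⟩
  · ext j
    have h3 : 0 ≤ R hp u n + t := add_nonneg (Real.rpow_nonneg (norm_nonneg _) _) ht.le
    by_cases hj : j = n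
    · subst hj
      rw [R_apply]
      simp only [e, lp.coeFn_add, Pi.add_apply, lp.single_apply_self, add_sub_cancel,
        lp.coeFn_smul, Pi.smul_apply, smul_eq_mul, mul_one]
      rw [Real.norm_of_nonneg (Real.rpow_nonneg h3 _), Real.rpow_rpow_inv h3 hr.ne']
    · rw [R_apply]
      simp [e, lp.single_apply, Pi.single_eq_of_ne hj, R_apply]
  · rw [dist_self_add_right, lp.norm_single zero_lt_one]
    exact hn.le

theorem trace : ∃ Λ : (X p →L[ℝ] X p) →L[ℝ] ℝ, ∀ T : X p →L[ℝ] X p,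
    Tendsto (fun m => T (e p m) m) U (𝓝 (Λ T)) := by
  have hb : ∀ (T : X p →L[ℝ] X p) m, |T (e p m) m| ≤ ‖T‖ := fun T m => by
    have h1 := lp.norm_apply_le_norm (zero_lt_one.trans_le (Fact.out : 1 ≤ p)).ne' (T (e p m)) m
    have h2 := T.le_opNorm (e p m)
    rw [norm_e, mul_one] at h2
    exact h1.trans h2
  choose L hL using fun T : X p →L[ℝ] X p => ulim _ _ (hb T)
  refine ⟨LinearMap.mkContinuous ⟨⟨L, fun S T => ?_⟩, fun c T => ?_⟩ 1 fun T => ?_, hL⟩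
  · exact tendsto_nhds_unique (hL (S + T)) ((hL S).add (hL T))
  · exact tendsto_nhds_unique (hL (c • T)) ((hL T).const_mul c)
  · rw [one_mul]
    exact le_of_tendsto' (hL T).norm (hb T)

theorem descent (hp : p ≠ ⊤) (hev : ∀ k : ℕ, p ≠ 2 * k) (H : X p → X p)
    (hH : ContDiff ℝ (⌊p.toReal⌋₊ + 1 : ℕ) H) (B : ℝ) (hB : ∀ x, ‖H x‖ ≤ B) (g : X p → ℝ)
    (hg : ContDiff ℝ (⌊p.toReal⌋₊ + 1 : ℕ) g) (M : ℝ) (hM : 0 ≤ M) (x : X p)
    (hx : Tendsto (fun m => fderiv ℝ H x (e p m) m) U (𝓝 (g x))) (hx2 : 1 / 2 ≤ g x) :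
    ∃ t > 0, ∀ᶠ q in U.curry U, ‖H x‖ ^ p.toReal - M * |1 - g x| + (t / 4) ^ p.toReal / 2 <
      ‖H (x + t • hh p q)‖ ^ p.toReal - M * |1 - g (x + t • hh p q)| := by
  have hr1 := r_ge hp
  have hr : 0 < p.toReal := zero_lt_one.trans_le hr1
  obtain ⟨C, hC, δ, hδ, h1⟩ := null hp hev H hH x
  obtain ⟨C', hC', δ', hδ', h2⟩ := null hp hev g hg x
  set K := ⌊p.toReal⌋₊ with hK
  have hK1 : 1 ≤ K := Nat.le_floor (by exact_mod_cast hr1)
  have hK2 : p.toReal < K + 1 := Nat.lt_floor_add_one _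
  obtain ⟨L, hL⟩ := ((Real.contDiff_rpow_const_of_le (p := p.toReal) (n := 1)
    (by exact_mod_cast hr1)).locallyLipschitz.locallyLipschitzOn
      (s := Set.Icc 0 (B + C))).exists_lipschitzOnWith_of_compact isCompact_Icc
  have hd : HasFDerivAt H (fderiv ℝ H x) x :=
    (hH.differentiable (by simp)).differentiableAt.hasFDerivAt
  obtain ⟨δ2, hδ2, h3⟩ := Metric.eventually_nhds_iff.1
    ((hasFDerivAt_iff_isLittleO_nhds_zero.1 hd).bound (show (0 : ℝ) < 1 / 32 by norm_num))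
  have hc : 0 < (1 / 4 : ℝ) ^ p.toReal := by positivity
  have e1 : Tendsto (fun t : ℝ => (L * C + M * C') * t ^ ((K + 1 : ℝ) - p.toReal)) (𝓝 0)
      (𝓝 ((L * C + M * C') * (0 : ℝ) ^ ((K + 1 : ℝ) - p.toReal))) :=
    (tendsto_id.rpow_const (Or.inr (by linarith))).const_mul _
  rw [Real.zero_rpow (by linarith), mul_zero] at e1
  have e2 : Tendsto (fun t : ℝ => C * t) (𝓝 0) (𝓝 (C * 0)) := tendsto_id.const_mul _
  rw [mul_zero] at e2
  have e3 : ∀ᶠ t : ℝ in 𝓝[>] 0, 0 < t ∧ t < δ ∧ t < δ' ∧ t < δ2 / 2 ∧ t < 1 ∧ C * t < 1 / 16 ∧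
      (L * C + M * C') * t ^ ((K + 1 : ℝ) - p.toReal) < (1 / 4 : ℝ) ^ p.toReal / 4 := by
    refine (eventually_mem_nhdsWithin).and (nhdsWithin_le_nhds ?_)
    filter_upwards [gt_mem_nhds hδ, gt_mem_nhds hδ', gt_mem_nhds (half_pos hδ2),
      gt_mem_nhds one_pos, e2.eventually (gt_mem_nhds (show (0 : ℝ) < 1 / 16 by norm_num)),
      e1.eventually (gt_mem_nhds (show 0 < (1 / 4 : ℝ) ^ p.toReal / 4 by positivity))]
      with t a1 a2 a3 a4 a5 a6
    exact ⟨a1, a2, a3, a4, a5, a6⟩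
  obtain ⟨t, t0, t1, t2, t3, t4, t5, t6⟩ := e3.exists
  obtain ⟨W, hW1, hW2⟩ := h1 t t0 t1
  obtain ⟨V, hV1, hV2⟩ := h2 t t0 t2
  refine ⟨t, t0, ?_⟩
  have hA : 0 < (t / 4) ^ p.toReal := by positivity
  have hAe : (t / 4) ^ p.toReal = (1 / 4 : ℝ) ^ p.toReal * t ^ p.toReal := by
    rw [← Real.mul_rpow (by norm_num) t0.le]
    congr 1
    ring
  have t7 : (L * C + M * C') * t ^ (K + 1) ≤ (t / 4) ^ p.toReal / 4 := by
    have h4 : t ^ (K + 1) = t ^ ((K + 1 : ℝ) - p.toReal) * t ^ p.toReal := by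
      rw [← Real.rpow_add t0, sub_add_cancel]
      exact_mod_cast (Real.rpow_natCast t (K + 1)).symm
    rw [h4, hAe, ← mul_assoc]
    have := Real.rpow_pos_of_pos t0 p.toReal
    nlinarith
  have t8 : t ^ (K + 1) ≤ t * t := by
    obtain ⟨j, hj⟩ := Nat.exists_eq_add_of_le hK1
    rw [hj, show 1 + j + 1 = j + 2 by omega, pow_add, sq]
    have := pow_le_one₀ (n := j) t0.le t4.le
    nlinarith [mul_pos t0 t0]
  have t9 : C * t ^ (K + 1) ≤ t / 16 := by
    have := mul_le_mul_of_nonneg_left t8 hC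
    nlinarith
  have t10 : C * t ^ (K + 1) ≤ C := by
    have := pow_le_one₀ (n := K + 1) t0.le t4.le
    nlinarith
  have c1 : Tendsto (fun q : ℕ × ℕ => H x q.2 + t * fderiv ℝ H x (hh p q) q.2) (U.curry U)
      (𝓝 (0 + t * (0 - g x))) := by
    refine ((coord_null hp (H x)).comp snd_top).add (Tendsto.const_mul t ?_)
    refine curry_lim (a := fun _ => 0 - g x) (fun n => ?_) tendsto_const_nhds
    refine (((coord_null hp (fderiv ℝ H x (e p n))).mono_left U_le).sub hx).congr fun m => ?_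
    simp [hh]
  have c2 : ∀ᶠ q in U.curry U, t / 4 ≤ ‖(H x + W q) q.2‖ := by
    filter_upwards [c1.eventually (gt_mem_nhds
      (show 0 + t * (0 - g x) < -(3 * t / 8) by nlinarith))] with q hq
    have n1 : ‖t • hh p q‖ ≤ 2 * t := by
      rw [norm_smul, Real.norm_of_nonneg t0.le]
      nlinarith [norm_hh (p := p) q]
    have n2 := h3 (y := t • hh p q) (by rw [dist_zero_right]; linarith)
    have hp0 : p ≠ 0 := (zero_lt_one.trans_le (Fact.out : 1 ≤ p)).ne'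
    have n3 := (lp.norm_apply_le_norm hp0 _ q.2).trans n2
    have n4 := (lp.norm_apply_le_norm hp0 _ q.2).trans (hW1 q)
    simp only [map_smul, lp.coeFn_sub, Pi.sub_apply, lp.coeFn_smul, Pi.smul_apply, smul_eq_mul,
      Real.norm_eq_abs] at n3 n4
    rw [lp.coeFn_add, Pi.add_apply, Real.norm_eq_abs]
    have n5 := abs_le.1 n3
    have n6 := abs_le.1 n4
    refine le_trans ?_ (neg_le_abs _)
    linarith
  have hη : 0 < (t / 4) ^ p.toReal / (8 * (1 + M)) := by positivity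
  have c3 := normlem hp (H x) W (fun j => hW2 (lp.evalCLM ℝ _ p j)) (t / 4) (by positivity) c2 _ hη
  have c4 := (hV2 (ContinuousLinearMap.id ℝ ℝ)).abs
  rw [abs_zero] at c4
  filter_upwards [c3, c4.eventually (gt_mem_nhds hη)] with q q1 q2
  have q3 := hV1 q
  have q4 := hW1 q
  rw [sub_sub] at q4
  have q5 := abs_norm_sub_norm_le (H (x + t • hh p q)) (H x + W q)
  have q6 := hL.dist_le_mul ‖H (x + t • hh p q)‖ ⟨norm_nonneg _, by linarith [hB (x + t • hh p q)]⟩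
    ‖H x + W q‖ ⟨norm_nonneg _, by linarith [hB (x + t • hh p q), abs_le.1 q5]⟩
  rw [Real.dist_eq, Real.dist_eq] at q6
  have q7 := mul_le_mul_of_nonneg_left (q5.trans q4) L.2
  have q8 := (abs_le.1 (q6.trans q7)).1
  have q9 : |1 - g (x + t • hh p q)| ≤ |1 - g x| + C' * t ^ (K + 1) +
      (t / 4) ^ p.toReal / (8 * (1 + M)) := by
    rw [Real.norm_eq_abs] at q3
    have q10 : |V q| < (t / 4) ^ p.toReal / (8 * (1 + M)) := q2
    have a1 := abs_le.1 q3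
    have a2 := abs_lt.1 q10
    have a3 := le_abs_self (1 - g x)
    have a4 := neg_abs_le (1 - g x)
    rw [abs_le]
    constructor <;> linarith
  have q10 := mul_le_mul_of_nonneg_left q9 hM
  have q11 : (1 + M) * ((t / 4) ^ p.toReal / (8 * (1 + M))) = (t / 4) ^ p.toReal / 8 := by
    field_simp
  have q12 : (L : ℝ) = L.1 := rfl
  rw [← q12] at q8
  nlinarith

theorem result (p : ℝ≥0∞) [Fact (1 ≤ p)] (hp : p ≠ ⊤) (hev : ∀ k : ℕ, p ≠ 2 * k)
    (q : WithTop ℕ∞) (hq : ((⌊p.toReal⌋₊ + 2 : ℕ) : WithTop ℕ∞) ≤ q) :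
    ¬ ∃ H : lp (fun _ : ℕ => ℝ) p → lp (fun _ : ℕ => ℝ) p,
      ContDiff ℝ q H ∧ (∃ B : ℝ, ∀ x, ‖H x‖ ≤ B) ∧ ∀ᶠ x in 𝓝 0, H x = x := by
  rintro ⟨H, hH, ⟨B, hB⟩, hid⟩
  have hr : 0 < p.toReal := zero_lt_one.trans_le (r_ge hp)
  obtain ⟨Λ, hΛ⟩ := trace (p := p)
  have hH1 : ContDiff ℝ (⌊p.toReal⌋₊ + 1 : ℕ) H :=
    hH.of_le (le_trans (by exact_mod_cast Nat.le_succ _) hq)
  have hg : ContDiff ℝ (⌊p.toReal⌋₊ + 1 : ℕ) fun x => Λ (fderiv ℝ H x) :=
    Λ.contDiff.comp (hH.fderiv_right (le_trans (by exact_mod_cast le_rfl) hq))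
  have hB0 : 0 ≤ B := (norm_nonneg _).trans (hB 0)
  have hBr : 0 ≤ B ^ p.toReal := Real.rpow_nonneg hB0 _
  have hBx : ∀ x, ‖H x‖ ^ p.toReal ≤ B ^ p.toReal := fun x =>
    Real.rpow_le_rpow (norm_nonneg _) (hB x) hr.le
  set M := 2 * B ^ p.toReal + 1 with hM
  have hM0 : 0 < M := by positivity
  let F : X p → ℝ := fun x => ‖H x‖ ^ p.toReal - M * |1 - Λ (fderiv ℝ H x)|
  have hF : Continuous F :=
    (hH1.continuous.norm.rpow_const fun _ => Or.inr hr.le).sub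
      (continuous_const.mul (continuous_const.sub hg.continuous).abs)
  have hc : 0 < (1 / 4 : ℝ) ^ p.toReal := by positivity
  obtain ⟨z, hz1, hz2⟩ := Pool.Agent.H5.Ek.ekeland
    (fun z : X 1 × X 1 => F (R hp z.1 - R hp z.2))
    (hF.comp (((R_cont hp).comp continuous_fst).sub ((R_cont hp).comp continuous_snd)))
    (B ^ p.toReal) (fun z => by
      have := mul_nonneg hM0.le (abs_nonneg (1 - Λ (fderiv ℝ H (R hp z.1 - R hp z.2))))
      have := hBx (R hp z.1 - R hp z.2)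
      simp only [F]
      linarith) ((1 / 4 : ℝ) ^ p.toReal / 4) (by positivity) 0
  have h0 : F 0 = 0 := by
    have h1 : H 0 = 0 := hid.self_of_nhds
    have h2 : fderiv ℝ H 0 = ContinuousLinearMap.id ℝ _ := by
      rw [Filter.EventuallyEq.fderiv_eq (f₁ := H) (f := id) hid, fderiv_id]
    have h3 : Λ (ContinuousLinearMap.id ℝ _) = 1 := by
      refine tendsto_nhds_unique (hΛ _) (tendsto_const_nhds.congr fun m => ?_)
      simp [e]
    simp only [F]
    rw [h1, h2, h3, norm_zero, Real.zero_rpow hr.ne']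
    simp
  simp only [Prod.fst_zero, Prod.snd_zero, sub_self] at hz1
  rw [h0] at hz1
  set x := R hp z.1 - R hp z.2 with hx
  have hx2 : 1 / 2 ≤ Λ (fderiv ℝ H x) := by
    have h1 := mul_nonneg (show 0 ≤ (1 / 4 : ℝ) ^ p.toReal / 4 by positivity)
      (dist_nonneg (x := 0) (y := z))
    have h2 := hBx x
    have h3 := mul_le_mul_of_nonneg_left (le_abs_self (1 - Λ (fderiv ℝ H x))) hM0.le
    simp only [F] at hz1
    by_contra h4
    push Not at h4
    nlinarith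
  obtain ⟨t, t0, ht⟩ := descent hp hev H hH1 B hB _ hg M hM0.le x (hΛ _) hx2
  obtain ⟨k1, hk1⟩ := (eventually_curry_iff.1 (ht.and
    ((fst_top.eventually (R_step hp z.1 t t0)).and (snd_top.eventually (R_step hp z.2 t t0))))).exists
  obtain ⟨k2, hk, ⟨u, hu1, hu2⟩, ⟨v, hv1, hv2⟩⟩ := hk1.exists
  have h1 := hz2 (u, v)
  have h2 : R hp u - R hp v = x + t • hh p (k1, k2) := by
    rw [hu1, hv1, hx, hh, smul_sub]
    abel
  have h3 : dist z (u, v) ≤ 2 * t ^ p.toReal := max_le hu2 hv2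
  have hAe : (t / 4) ^ p.toReal = (1 / 4 : ℝ) ^ p.toReal * t ^ p.toReal := by
    rw [← Real.mul_rpow (by norm_num) t0.le]
    congr 1
    ring
  simp only [h2, F] at h1
  have h4 := mul_le_mul_of_nonneg_left h3 (show 0 ≤ (1 / 4 : ℝ) ^ p.toReal / 4 by positivity)
  rw [hAe] at hk
  linarith

end Pool.Agent.Results.MP_94b2f9_an.NoBlid
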